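import Pool.Agent.V7H92.S263.Comb

set_option autoImplicit false
set_option linter.unusedSectionVars false

/-!
# Boolean checks
-/

namespace Pool.Agent.V7H92.S263

/-- `p` holds for all numbers below `n` -/
noncomputable def allB (n : ℕ) (p : ℕ → Bool) : Bool :=
  Nat.rec true (fun k ih => bif p k then ih else false) n

theorem allB_spec (p : ℕ → Bool) : ∀ n, allB n p = true → ∀ i < n, p i = true := by
  intro n
  induction n with
  | zero =>
    intro _ i hi
    exact absurd hi (Nat.not_lt_zero i)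
  | succ n ih =>
    intro h i hi
    have h2 : (bif p n then allB n p else false) = true := h
    rw [cond_eq_ite] at h2
    split at h2
    · rename_i h3
      rcases Nat.lt_succ_iff_lt_or_eq.1 hi with h4 | h4
      · exact ih h2 i h4
      · rw [h4]
        exact h3
    · exact absurd h2 (by simp)

/-- binary trees of numbers -/
inductive T8 : Type
  | leaf : ℕ → T8
  | node : T8 → T8 → T8

/-- look up in a binary tree -/
noncomputable def T8.get (t : T8) : ℕ → ℕ :=
  T8.rec (fun n _ => n) (fun _ _ gl gr k => bif Nat.beq (Nat.mod k 2) 0 then gl (Nat.div k 2)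
    else gr (Nat.div k 2)) t

/-- double byte number `k` -/
def byte (n k : ℕ) : ℕ := Nat.mod (Nat.shiftRight n (Nat.mul 16 k)) 65536

/-- code number `j` of base block `i` -/
noncomputable def bcT (D : T8) (i j : ℕ) : ℕ := byte (D.get i) j

/-- the table of third points -/
noncomputable def MT (D : T8) (u v : ℕ) : ℕ := byte (D.get u) v

/-- the indices different from `a, b, c` -/
def others (a b c : ℕ) : List ℕ :=
  ([0, 1, 2, 3, 4, 5] : List ℕ).filter
    (fun j => bif Nat.beq j a then false else bif Nat.beq j b then false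
      else bif Nat.beq j c then false else true)

/-- the six conditions for a triple -/
def six (M : ℕ → ℕ → ℕ) (u v w : ℕ) : Bool :=
  bif Nat.beq (M u v) w then bif Nat.beq (M v u) w then bif Nat.beq (M u w) v then
  bif Nat.beq (M w u) v then bif Nat.beq (M v w) u then Nat.beq (M w v) u
  else false else false else false else false else false

/-- check for one list of other indices -/
def chkL (M : ℕ → ℕ → ℕ) (g : ℕ → ℕ) (l : List ℕ) : Bool :=
  List.rec false (fun x t _ => List.rec false (fun y t2 _ => List.rec false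
    (fun z t3 _ => List.rec (six M (g x) (g y) (g z)) (fun _ _ _ => false) t3) t2) t) l

theorem chkL_spec {M : ℕ → ℕ → ℕ} {g : ℕ → ℕ} {l : List ℕ} (h : chkL M g l = true) :
    ∃ x y z, l = [x, y, z] ∧ six M (g x) (g y) (g z) = true := by
  match l with
  | [] => exact absurd h (by simp [chkL])
  | [x] => exact absurd h (by simp [chkL])
  | [x, y] => exact absurd h (by simp [chkL])
  | [x, y, z] => exact ⟨x, y, z, rfl, h⟩
  | x :: y :: z :: w :: t => exact absurd h (by simp [chkL])

theorem six_spec {M : ℕ → ℕ → ℕ} {u v w : ℕ} (h : six M u v w = true) :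
    M u v = w ∧ M v u = w ∧ M u w = v ∧ M w u = v ∧ M v w = u ∧ M w v = u := by
  unfold six at h
  simp only [cond_eq_ite, Bool.if_false_right, Bool.and_eq_true, decide_eq_true_eq] at h
  obtain ⟨k1, k2, k3, k4, k5, k6⟩ := h
  exact ⟨Nat.eq_of_beq_eq_true k1, Nat.eq_of_beq_eq_true k2, Nat.eq_of_beq_eq_true k3,
    Nat.eq_of_beq_eq_true k4, Nat.eq_of_beq_eq_true k5, Nat.eq_of_beq_eq_true k6⟩

/-- check for positions `a, b, c` of the block `i` -/
def chkABC (bc : ℕ → ℕ → ℕ) (M : ℕ → ℕ → ℕ) (i a b c : ℕ) : Bool :=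
  bif Nat.beq a b then true else bif Nat.beq a c then true else bif Nat.beq b c then true else
  bif ori (bc i a) (bc i b) (bc i c) then chkL M (im bc i a b c) (others a b c) else true

theorem beq_false {a b : ℕ} (h : a ≠ b) : Nat.beq a b = false := by
  rw [← Bool.not_eq_true]
  intro h2
  exact h (Nat.eq_of_beq_eq_true h2)

theorem mem_others {a b c d : ℕ} (hd : d < 6) (h1 : d ≠ a) (h2 : d ≠ b) (h3 : d ≠ c) :
    d ∈ others a b c := by
  unfold others
  rw [List.mem_filter]
  refine ⟨?_, ?_⟩
  · simp only [List.mem_cons, List.not_mem_nil, or_false]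
    omega
  · rw [beq_false h1, beq_false h2, beq_false h3]
    rfl

theorem chkABC_spec {bc : ℕ → ℕ → ℕ} {M : ℕ → ℕ → ℕ} {i a b c d e f : ℕ}
    (h : chkABC bc M i a b c = true) (hd : d < 6) (he : e < 6) (hf : f < 6)
    (hnd : [a, b, c, d, e, f].Nodup) (ho : ori (bc i a) (bc i b) (bc i c) = true) :
    M (im bc i a b c d) (im bc i a b c e) = im bc i a b c f := by
  simp only [List.nodup_cons, List.mem_cons, List.not_mem_nil, or_false, not_or,
    not_false_eq_true, List.nodup_nil, and_true] at hnd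
  obtain ⟨⟨ab, ac, ad, ae, af⟩, ⟨bc', bd, be, bf⟩, ⟨cd, ce, cf⟩, ⟨de, df⟩, ef⟩ := hnd
  unfold chkABC at h
  rw [beq_false ab, beq_false ac, beq_false bc', ho] at h
  simp only [cond_false, cond_true] at h
  obtain ⟨x, y, z, hl, h6⟩ := chkL_spec h
  obtain ⟨k1, k2, k3, k4, k5, k6⟩ := six_spec h6
  have md := mem_others hd (Ne.symm ad) (Ne.symm bd) (Ne.symm cd)
  have me := mem_others he (Ne.symm ae) (Ne.symm be) (Ne.symm ce)
  have mf := mem_others hf (Ne.symm af) (Ne.symm bf) (Ne.symm cf)
  rw [hl] at md me mf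
  simp only [List.mem_cons, List.not_mem_nil, or_false] at md me mf
  rcases md with rfl | rfl | rfl <;> rcases me with rfl | rfl | rfl <;>
    rcases mf with rfl | rfl | rfl <;> first | assumption | (exact absurd rfl (by assumption))

/-- check for the block `i` -/
noncomputable def chkI (bc : ℕ → ℕ → ℕ) (M : ℕ → ℕ → ℕ) (i : ℕ) : Bool :=
  allB 6 fun a => allB 6 fun b => allB 6 fun c => chkABC bc M i a b c

theorem uni_of {N : ℕ} {bc : ℕ → ℕ → ℕ} {M : ℕ → ℕ → ℕ}
    (h : ∀ i < N, chkI bc M i = true) : Uni N bc M := by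
  intro i hi a b c d e f ha hb hc hd he hf hnd ho
  have h1 := allB_spec _ _ (allB_spec _ _ (allB_spec _ _ (h i hi) a ha) b hb) c hc
  exact chkABC_spec h1 hd he hf hnd ho

/-- check of a witness for the pair `u, v` -/
def chkW (N : ℕ) (bc : ℕ → ℕ → ℕ) (u v w : ℕ) : Bool :=
  (fun i a b c d e : ℕ =>
    bif Nat.ble N i then false else
    bif ori (bc i a) (bc i b) (bc i c) then
      bif Nat.beq (im bc i a b c d) u then Nat.beq (im bc i a b c e) v else false
    else false)
  (Nat.div w 7776) (Nat.mod (Nat.div w 1296) 6) (Nat.mod (Nat.div w 216) 6)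
  (Nat.mod (Nat.div w 36) 6) (Nat.mod (Nat.div w 6) 6) (Nat.mod w 6)

theorem chkW_spec {N : ℕ} {bc : ℕ → ℕ → ℕ} {u v w : ℕ} (h : chkW N bc u v w = true) :
    ∃ i < N, ∃ a < 6, ∃ b < 6, ∃ c < 6, ∃ d < 6, ∃ e < 6,
    ori (bc i a) (bc i b) (bc i c) = true ∧ im bc i a b c d = u ∧ im bc i a b c e = v := by
  have hm : ∀ x : ℕ, Nat.mod x 6 < 6 := fun x => Nat.mod_lt x (by norm_num)
  unfold chkW at h
  simp only [cond_eq_ite] at h
  split at h
  · exact absurd h (by simp)
  rename_i h0
  split at h
  · rename_i h1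
    split at h
    · rename_i h2
      refine ⟨_, ?_, _, hm _, _, hm _, _, hm _, _, hm _, _, hm _, h1,
        Nat.eq_of_beq_eq_true h2, Nat.eq_of_beq_eq_true h⟩
      rw [Nat.ble_eq] at h0
      omega
    · exact absurd h (by simp)
  · exact absurd h (by simp)

/-- check of the witnesses of the pairs `u, v` for fixed `u` -/
noncomputable def chkU (N : ℕ) (bc : ℕ → ℕ → ℕ) (W : ℕ → ℕ) (u : ℕ) : Bool :=
  allB 263 fun v => bif Nat.ble v u then true else
    chkW N bc u v (Nat.mod (Nat.shiftRight (W u) (Nat.mul 24 v)) 16777216)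

theorem exi_of {N : ℕ} {bc : ℕ → ℕ → ℕ} {W : ℕ → ℕ}
    (h : ∀ u < 263, 2 ≤ u → chkU N bc W u = true) : Exi N bc := by
  intro u v hu huv hv
  have h1 := allB_spec _ _ (h u (by omega) hu) v (by omega)
  have h2 : Nat.ble v u = false := by
    rw [← Bool.not_eq_true, Nat.ble_eq]
    omega
  rw [h2, cond_false] at h1
  exact chkW_spec h1

/-- check that the codes of the block `i` are different and at most 263 -/
noncomputable def chkB (bc : ℕ → ℕ → ℕ) (i : ℕ) : Bool :=
  allB 6 fun j => bif Nat.ble (bc i j) 263 then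
    (allB 6 fun k => bif Nat.ble k j then true else
      bif Nat.beq (bc i j) (bc i k) then false else true) else false

theorem chkB_spec {bc : ℕ → ℕ → ℕ} {i : ℕ} (h : chkB bc i = true) :
    (∀ j < 6, bc i j ≤ 263) ∧ ∀ j < 6, ∀ k < 6, j < k → bc i j ≠ bc i k := by
  have h1 : ∀ j < 6, bc i j ≤ 263 ∧ (allB 6 fun k => bif Nat.ble k j then true else
      bif Nat.beq (bc i j) (bc i k) then false else true) = true := by
    intro j hj
    have h2 := allB_spec _ _ h j hj
    simp only [cond_eq_ite] at h2 ⊢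
    split at h2
    · rename_i h3
      exact ⟨by rwa [Nat.ble_eq] at h3, h2⟩
    · exact absurd h2 (by simp)
  refine ⟨fun j hj => (h1 j hj).1, ?_⟩
  intro j hj k hk hjk heq
  have h3 := allB_spec _ _ (h1 j hj).2 k hk
  have h4 : Nat.ble k j = false := by
    rw [← Bool.not_eq_true, Nat.ble_eq]
    omega
  rw [h4, cond_false, heq, Nat.beq_refl] at h3
  exact absurd h3 (by simp)

end Pool.Agent.V7H92.S263
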