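import Pool.Agent.V7H92.S263.Code

set_option autoImplicit false
set_option linter.unusedSectionVars false

/-!
# Orbits of the group of Möbius maps with square determinant on 6-subsets
-/

namespace Pool.Agent.V7H92.S263

open OnePoint Matrix Pool.Agent.V7H92.S5

noncomputable instance decX : DecidableEq (OnePoint F) := Classical.decEq _

/-- base block number `i` -/
noncomputable def base (bc : ℕ → ℕ → ℕ) (i : ℕ) : Finset (OnePoint F) :=
  (Finset.range 6).image (fun j => dec (bc i j))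

/-- the blocks: images of the base blocks -/
def IsBlock (N : ℕ) (bc : ℕ → ℕ → ℕ) (B : Finset (OnePoint F)) : Prop :=
  ∃ g ∈ Sq F, ∃ i < N, B = (base bc i).image (fun x => g • x)

lemma dt_swap {K : Type*} [Field K] (a b : K × K) : dt a b = - dt b a := by
  unfold dt
  ring

lemma dt_ne {m n : ℕ} (hm : m ≤ 263) (hn : n ≤ 263) (h : dec m ≠ dec n) :
    dt (vec m) (vec n) ≠ 0 := by
  intro h0
  exact h ((pt_eq_iff (vec_ne m hm) (vec_ne n hn)).2 h0)

lemma act {g : GL (Fin 2) F} (hg : g ∈ Sq F) {a b c : ℕ} (ha : a ≤ 263) (hb : b ≤ 263)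
    (hc : c ≤ 263) (h1 : g • dec a = dec 263) (h2 : g • dec b = dec 0) (h3 : g • dec c = dec 1) :
    ori a b c = true ∧ ∀ z ≤ 263, g • dec z = dec (phi a b (dn c a) (dn c b) z) := by
  have n1 : dec (263 : ℕ) ≠ dec 0 := by
    rw [dec_263, dec_zero]
    exact (OnePoint.coe_ne_infty _).symm
  have n2 : dec (263 : ℕ) ≠ dec 1 := by
    rw [dec_263, dec_one]
    exact (OnePoint.coe_ne_infty _).symm
  have n3 : dec (0 : ℕ) ≠ dec 1 := by
    intro h
    have := dec_inj (by norm_num) (by norm_num) h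
    omega
  have m1 : dec b ≠ dec a := by
    intro h
    rw [h, h1] at h2
    exact n1 h2
  have m2 : dec c ≠ dec a := by
    intro h
    rw [h, h1] at h3
    exact n2 h3
  have m3 : dec c ≠ dec b := by
    intro h
    rw [h, h2] at h3
    exact n3 h3
  have h : dt (vec c) (vec a) * dt (vec c) (vec b) * dt (vec b) (vec a) ≠ 0 :=
    mul_ne_zero (mul_ne_zero (dt_ne hc ha m2) (dt_ne hc hb m3)) (dt_ne hb ha m1)
  obtain ⟨k1, k2⟩ := eq_PG g hg (vec a) (vec b) (vec c) (vec_ne a ha) (vec_ne b hb)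
    (vec_ne c hc) (by rw [← dec_263]; exact h1) (by rw [← dec_zero]; exact h2)
    (by rw [← dec_one]; exact h3) h
  refine ⟨(ori_iff a b c).2 ⟨h, k2⟩, ?_⟩
  intro z hz
  rw [k1, phi_dec, dn_cast, dn_cast]
  exact PG_pt _ _ _ _ _ (vec_ne z hz)

lemma act' {a b c : ℕ} (ha : a ≤ 263) (hb : b ≤ 263)
    (hc : c ≤ 263) (h : ori a b c = true) : ∃ g ∈ Sq F,
    (g • dec a = dec 263 ∧ g • dec b = dec 0 ∧ g • dec c = dec 1) ∧
    ∀ z ≤ 263, g • dec z = dec (phi a b (dn c a) (dn c b) z) := by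
  obtain ⟨h1, h2⟩ := (ori_iff a b c).1 h
  refine ⟨PG (vec a) (vec b) (vec c) h1, PG_mem_Sq _ _ _ h1 h2, ⟨?_, ?_, ?_⟩, ?_⟩
  · rw [dec_263]
    exact PG_a _ _ _ h1 (vec_ne a ha)
  · rw [dec_zero]
    exact PG_b _ _ _ h1 (vec_ne b hb)
  · rw [dec_one]
    exact PG_c _ _ _ h1 (vec_ne c hc)
  · intro z hz
    rw [phi_dec, dn_cast, dn_cast]
    exact PG_pt _ _ _ _ _ (vec_ne z hz)

theorem sq_or : ∀ x < 263, x ≠ 0 → chi x = true ∨ chi (263 - x) = true := by decide +kernel

lemma isSquare_or (x : F) (h : x ≠ 0) : IsSquare x ∨ IsSquare (-x) := by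
  have h1 : x.val < 263 := ZMod.val_lt x
  have h0 : x.val ≠ 0 := by rwa [Ne, ZMod.val_eq_zero]
  have e : ((x.val : ℕ) : F) = x := ZMod.natCast_zmod_val x
  rcases sq_or x.val h1 h0 with h2 | h2
  · left
    have := ((chi_iff h1).1 h2).2
    rwa [e] at this
  · right
    have h3 : 263 - x.val < 263 := by omega
    have := ((chi_iff h3).1 h2).2
    have h4 : ((263 : ℕ) : F) = 0 := ZMod.natCast_self 263
    rw [Nat.cast_sub h1.le, h4, e, zero_sub] at this
    exact this

/-- The group is transitive on 3-subsets. -/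
lemma homogeneous (x y z : OnePoint F) (hxy : x ≠ y) (hxz : x ≠ z) (hyz : y ≠ z) :
    ∃ g ∈ Sq F, ({g • x, g • y, g • z} : Finset (OnePoint F)) = {dec 263, dec 0, dec 1} := by
  obtain ⟨a, ha, rfl⟩ := exists_code x
  obtain ⟨b, hb, rfl⟩ := exists_code y
  obtain ⟨c, hc, rfl⟩ := exists_code z
  have h : dt (vec c) (vec a) * dt (vec c) (vec b) * dt (vec b) (vec a) ≠ 0 :=
    mul_ne_zero (mul_ne_zero (dt_ne hc ha hxz.symm) (dt_ne hc hb hyz.symm)) (dt_ne hb ha hxy.symm)
  rcases isSquare_or _ h with h1 | h1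
  · obtain ⟨g, hg, ⟨h2, h3, h4⟩, _⟩ := act' ha hb hc ((ori_iff a b c).2 ⟨h, h1⟩)
    refine ⟨g, hg, ?_⟩
    rw [h2, h3, h4]
  · have e : -(dt (vec c) (vec a) * dt (vec c) (vec b) * dt (vec b) (vec a)) =
        dt (vec c) (vec b) * dt (vec c) (vec a) * dt (vec a) (vec b) := by
      rw [dt_swap (vec a) (vec b)]
      ring
    have h' : dt (vec c) (vec b) * dt (vec c) (vec a) * dt (vec a) (vec b) ≠ 0 := by
      rw [← e]
      exact neg_ne_zero.2 h
    rw [e] at h1
    obtain ⟨g, hg, ⟨h2, h3, h4⟩, _⟩ := act' hb ha hc ((ori_iff b a c).2 ⟨h', h1⟩)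
    refine ⟨g, hg, ?_⟩
    rw [h2, h3, h4]
    ext t
    simp only [Finset.mem_insert, Finset.mem_singleton]
    tauto

section data

variable {N : ℕ} {bc : ℕ → ℕ → ℕ} {M : ℕ → ℕ → ℕ}

/-- image of the code `bc i z` under the map given by positions `a, b, c` of the block `i` -/
def im (bc : ℕ → ℕ → ℕ) (i a b c z : ℕ) : ℕ :=
  phi (bc i a) (bc i b) (dn (bc i c) (bc i a)) (dn (bc i c) (bc i b)) (bc i z)

/-- In every block through `263, 0, 1` any two of the other points give the last one by `M`. -/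
def Uni (N : ℕ) (bc : ℕ → ℕ → ℕ) (M : ℕ → ℕ → ℕ) : Prop :=
  ∀ i < N, ∀ a b c d e f : ℕ, a < 6 → b < 6 → c < 6 → d < 6 → e < 6 → f < 6 →
    [a, b, c, d, e, f].Nodup → ori (bc i a) (bc i b) (bc i c) = true →
    M (im bc i a b c d) (im bc i a b c e) = im bc i a b c f

/-- Every pair of other points is in a block through `263, 0, 1`. -/
def Exi (N : ℕ) (bc : ℕ → ℕ → ℕ) : Prop :=
  ∀ u v : ℕ, 2 ≤ u → u < v → v ≤ 262 → ∃ i < N, ∃ a < 6, ∃ b < 6, ∃ c < 6, ∃ d < 6, ∃ e < 6,
    ori (bc i a) (bc i b) (bc i c) = true ∧ im bc i a b c d = u ∧ im bc i a b c e = v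

lemma six_perm {a b c d e : ℕ} (ha : a < 6) (hb : b < 6) (hc : c < 6) (hd : d < 6) (he : e < 6)
    (h : [a, b, c, d, e].Nodup) : ∃ f < 6, [a, b, c, d, e, f].Nodup ∧
      ∀ j < 6, j = a ∨ j = b ∨ j = c ∨ j = d ∨ j = e ∨ j = f := by
  have h1 : ([a, b, c, d, e].toFinset).card = 5 := by
    rw [List.toFinset_card_of_nodup h]
    rfl
  have h2 : ([a, b, c, d, e].toFinset) ⊆ Finset.range 6 := by
    intro x hx
    simp only [List.mem_toFinset, List.mem_cons, List.not_mem_nil, or_false] at hx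
    rw [Finset.mem_range]
    omega
  obtain ⟨f, hf⟩ : (Finset.range 6 \ [a, b, c, d, e].toFinset).Nonempty := by
    rw [← Finset.card_pos, Finset.card_sdiff_of_subset h2, h1, Finset.card_range]
    norm_num
  rw [Finset.mem_sdiff, Finset.mem_range, List.mem_toFinset] at hf
  obtain ⟨hf1, hf2⟩ := hf
  have hn : [a, b, c, d, e, f].Nodup := List.Nodup.concat hf2 h
  refine ⟨f, hf1, hn, ?_⟩
  have h3 : ([a, b, c, d, e, f].toFinset) ⊆ Finset.range 6 := by
    intro x hx
    simp only [List.mem_toFinset, List.mem_cons, List.not_mem_nil, or_false] at hx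
    rw [Finset.mem_range]
    omega
  have h4 : ([a, b, c, d, e, f].toFinset) = Finset.range 6 := by
    apply Finset.eq_of_subset_of_card_le h3
    rw [List.toFinset_card_of_nodup hn, Finset.card_range]
    rfl
  intro j hj
  have h5 : j ∈ [a, b, c, d, e, f].toFinset := by
    rw [h4]
    exact Finset.mem_range.2 hj
  simpa only [List.mem_toFinset, List.mem_cons, List.not_mem_nil, or_false] using h5

theorem block_eq (hle : ∀ i < N, ∀ j < 6, bc i j ≤ 263) (hU : Uni N bc M)
    {u v : ℕ} (hu1 : 2 ≤ u) (hu2 : u ≤ 262) (hv1 : 2 ≤ v) (hv2 : v ≤ 262) (huv : u ≠ v)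
    {B : Finset (OnePoint F)} (hB : IsBlock N bc B) (m1 : dec 263 ∈ B) (m2 : dec 0 ∈ B)
    (m3 : dec 1 ∈ B) (m4 : dec u ∈ B) (m5 : dec v ∈ B) :
    B = {dec 263, dec 0, dec 1, dec u, dec v, dec (M u v)} := by
  obtain ⟨g, hg, i, hi, rfl⟩ := hB
  have key : ∀ {y : OnePoint F}, y ∈ (base bc i).image (fun x => g • x) →
      ∃ j < 6, g • dec (bc i j) = y := by
    intro y hy
    rw [Finset.mem_image] at hy
    obtain ⟨x, hx, rfl⟩ := hy
    unfold base at hx
    rw [Finset.mem_image] at hx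
    obtain ⟨j, hj, rfl⟩ := hx
    exact ⟨j, Finset.mem_range.1 hj, rfl⟩
  obtain ⟨a, ha, ea⟩ := key m1
  obtain ⟨b, hb, eb⟩ := key m2
  obtain ⟨c, hc, ec⟩ := key m3
  obtain ⟨d, hd, ed⟩ := key m4
  obtain ⟨e, he, ee⟩ := key m5
  have hne : ∀ {p q x y : ℕ}, g • dec (bc i p) = dec x → g • dec (bc i q) = dec y →
      x ≤ 263 → y ≤ 263 → x ≠ y → p ≠ q := by
    rintro p q x y h1 h2 h3 h4 h5 rfl
    rw [h1] at h2
    exact h5 (dec_inj h3 h4 h2)
  have hnd : [a, b, c, d, e].Nodup := by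
    have n1 := hne ea eb (by omega) (by omega) (by omega)
    have n2 := hne ea ec (by omega) (by omega) (by omega)
    have n3 := hne ea ed (by omega) (by omega) (by omega)
    have n4 := hne ea ee (by omega) (by omega) (by omega)
    have n5 := hne eb ec (by omega) (by omega) (by omega)
    have n6 := hne eb ed (by omega) (by omega) (by omega)
    have n7 := hne eb ee (by omega) (by omega) (by omega)
    have n8 := hne ec ed (by omega) (by omega) (by omega)
    have n9 := hne ec ee (by omega) (by omega) (by omega)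
    have n10 := hne ed ee (by omega) (by omega) (by omega)
    simp only [List.nodup_cons, List.mem_cons, List.not_mem_nil, or_false, not_or,
      not_false_eq_true, List.nodup_nil, and_true]
    omega
  obtain ⟨f, hf, hnd6, hall⟩ := six_perm ha hb hc hd he hnd
  obtain ⟨ho, hz⟩ := act hg (hle i hi a ha) (hle i hi b hb) (hle i hi c hc) ea eb ec
  have hd' : im bc i a b c d = u := by
    have := hz _ (hle i hi d hd)
    rw [ed] at this
    exact (dec_inj (by omega) (phi_le _ _ _ _ _) this).symm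
  have he' : im bc i a b c e = v := by
    have := hz _ (hle i hi e he)
    rw [ee] at this
    exact (dec_inj (by omega) (phi_le _ _ _ _ _) this).symm
  have hM := hU i hi a b c d e f ha hb hc hd he hf hnd6 ho
  rw [hd', he'] at hM
  have ef : g • dec (bc i f) = dec (M u v) := by
    rw [hz _ (hle i hi f hf), hM]
    rfl
  have hS : base bc i = {dec (bc i a), dec (bc i b), dec (bc i c), dec (bc i d), dec (bc i e),
      dec (bc i f)} := by
    ext x
    unfold base
    simp only [Finset.mem_image, Finset.mem_range, Finset.mem_insert, Finset.mem_singleton]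
    constructor
    · rintro ⟨j, hj, rfl⟩
      rcases hall j hj with h | h | h | h | h | h <;> subst h <;> simp
    · rintro (h | h | h | h | h | h)
      · exact ⟨a, ha, h.symm⟩
      · exact ⟨b, hb, h.symm⟩
      · exact ⟨c, hc, h.symm⟩
      · exact ⟨d, hd, h.symm⟩
      · exact ⟨e, he, h.symm⟩
      · exact ⟨f, hf, h.symm⟩
  rw [hS]
  simp only [Finset.image_insert, Finset.image_singleton, ea, eb, ec, ed, ee, ef]

theorem block_ex (hle : ∀ i < N, ∀ j < 6, bc i j ≤ 263) (hE : Exi N bc)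
    {u v : ℕ} (hu1 : 2 ≤ u) (hu2 : u ≤ 262) (hv1 : 2 ≤ v) (hv2 : v ≤ 262) (huv : u ≠ v) :
    ∃ B, IsBlock N bc B ∧ dec 263 ∈ B ∧ dec 0 ∈ B ∧ dec 1 ∈ B ∧ dec u ∈ B ∧ dec v ∈ B := by
  wlog h : u < v generalizing u v
  · obtain ⟨B, h1, h2, h3, h4, h5, h6⟩ := this hv1 hv2 hu1 hu2 huv.symm (by omega)
    exact ⟨B, h1, h2, h3, h4, h6, h5⟩
  obtain ⟨i, hi, a, ha, b, hb, c, hc, d, hd, e, he, ho, hd', he'⟩ := hE u v hu1 h hv2
  obtain ⟨g, hg, ⟨h1, h2, h3⟩, h4⟩ := act' (hle i hi a ha) (hle i hi b hb) (hle i hi c hc) ho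
  have key : ∀ j < 6, g • dec (bc i j) ∈ (base bc i).image (fun x => g • x) := by
    intro j hj
    apply Finset.mem_image_of_mem
    unfold base
    exact Finset.mem_image_of_mem _ (Finset.mem_range.2 hj)
  refine ⟨(base bc i).image (fun x => g • x), ⟨g, hg, i, hi, rfl⟩, ?_, ?_, ?_, ?_, ?_⟩
  · rw [← h1]
    exact key a ha
  · rw [← h2]
    exact key b hb
  · rw [← h3]
    exact key c hc
  · have := h4 _ (hle i hi d hd)
    unfold im at hd'
    rw [hd'] at this
    rw [← this]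
    exact key d hd
  · have := h4 _ (hle i hi e he)
    unfold im at he'
    rw [he'] at this
    rw [← this]
    exact key e he

/-- two finsets of points are equal if their images under a group element are -/
lemma image_smul_inj (g : GL (Fin 2) F) {A B : Finset (OnePoint F)}
    (h : A.image (fun x => g • x) = B.image (fun x => g • x)) : A = B :=
  Finset.image_injective (MulAction.injective g) h

lemma IsBlock.smul {B : Finset (OnePoint F)} (hB : IsBlock N bc B) {g : GL (Fin 2) F}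
    (hg : g ∈ Sq F) : IsBlock N bc (B.image (fun x => g • x)) := by
  obtain ⟨k, hk, i, hi, rfl⟩ := hB
  refine ⟨g * k, Subgroup.mul_mem _ hg hk, i, hi, ?_⟩
  rw [Finset.image_image]
  congr 1
  ext x
  simp only [Function.comp]
  rw [mul_smul]

theorem card_base (hle : ∀ i < N, ∀ j < 6, bc i j ≤ 263)
    (hnd : ∀ i < N, ∀ j < 6, ∀ k < 6, j < k → bc i j ≠ bc i k) {i : ℕ} (hi : i < N) :
    (base bc i).card = 6 := by
  unfold base
  rw [Finset.card_image_of_injOn, Finset.card_range]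
  intro j hj k hk hjk
  rw [Finset.coe_range, Set.mem_Iio] at hj hk
  have h := dec_inj (hle i hi j hj) (hle i hi k hk) hjk
  rcases Nat.lt_trichotomy j k with h1 | h1 | h1
  · exact absurd h (hnd i hi j hj k hk h1)
  · exact h1
  · exact absurd h.symm (hnd i hi k hk j hj h1)

theorem IsBlock.card (hle : ∀ i < N, ∀ j < 6, bc i j ≤ 263)
    (hnd : ∀ i < N, ∀ j < 6, ∀ k < 6, j < k → bc i j ≠ bc i k) {B : Finset (OnePoint F)}
    (hB : IsBlock N bc B) : B.card = 6 := by
  obtain ⟨k, hk, i, hi, rfl⟩ := hB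
  rw [Finset.card_image_of_injective _ (MulAction.injective k)]
  exact card_base hle hnd hi

/-- the local statement, for sets through `263, 0, 1` -/
theorem steiner_local (hle : ∀ i < N, ∀ j < 6, bc i j ≤ 263) (hU : Uni N bc M) (hE : Exi N bc)
    {T : Finset (OnePoint F)} (hT : T.card = 5) (hs : {dec 263, dec 0, dec 1} ⊆ T) :
    ∃! B, IsBlock N bc B ∧ T ⊆ B := by
  have c3 : ({dec 263, dec 0, dec 1} : Finset (OnePoint F)).card = 3 := by
    rw [Finset.card_eq_three]
    refine ⟨dec 263, dec 0, dec 1, ?_, ?_, ?_, rfl⟩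
    · intro h
      have := dec_inj (by norm_num) (by norm_num) h
      omega
    · intro h
      have := dec_inj (by norm_num) (by norm_num) h
      omega
    · intro h
      have := dec_inj (by norm_num) (by norm_num) h
      omega
  have c2 : (T \ {dec 263, dec 0, dec 1}).card = 2 := by
    rw [Finset.card_sdiff_of_subset hs, hT, c3]
  obtain ⟨x, y, hxy, hxy2⟩ := Finset.card_eq_two.1 c2
  have hT2 : T = {dec 263, dec 0, dec 1} ∪ {x, y} := by
    rw [← hxy2, Finset.union_sdiff_of_subset hs]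
  obtain ⟨u, hu, rfl⟩ := exists_code x
  obtain ⟨v, hv, rfl⟩ := exists_code y
  have hxm : dec u ∈ T \ {dec 263, dec 0, dec 1} := by
    rw [hxy2]
    simp
  have hym : dec v ∈ T \ {dec 263, dec 0, dec 1} := by
    rw [hxy2]
    simp
  have rng : ∀ {w : ℕ}, w ≤ 263 → dec w ∈ T \ {dec 263, dec 0, dec 1} → 2 ≤ w ∧ w ≤ 262 := by
    intro w hw h
    rw [Finset.mem_sdiff] at h
    have h2 := h.2
    simp only [Finset.mem_insert, Finset.mem_singleton, not_or] at h2
    obtain ⟨k1, k2, k3⟩ := h2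
    have : w ≠ 263 := by
      rintro rfl
      exact k1 rfl
    have : w ≠ 0 := by
      rintro rfl
      exact k2 rfl
    have : w ≠ 1 := by
      rintro rfl
      exact k3 rfl
    omega
  obtain ⟨hu1, hu2⟩ := rng hu hxm
  obtain ⟨hv1, hv2⟩ := rng hv hym
  have huv : u ≠ v := by
    rintro rfl
    exact hxy rfl
  obtain ⟨B, hB, m1, m2, m3, m4, m5⟩ := block_ex hle hE hu1 hu2 hv1 hv2 huv
  have sub : ∀ {C : Finset (OnePoint F)}, T ⊆ C ↔
      dec 263 ∈ C ∧ dec 0 ∈ C ∧ dec 1 ∈ C ∧ dec u ∈ C ∧ dec v ∈ C := by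
    intro C
    rw [hT2]
    constructor
    · intro h
      refine ⟨h ?_, h ?_, h ?_, h ?_, h ?_⟩ <;> simp
    · rintro ⟨k1, k2, k3, k4, k5⟩ z hz
      simp only [Finset.mem_union, Finset.mem_insert, Finset.mem_singleton] at hz
      rcases hz with (h | h | h) | (h | h) <;> rw [h] <;> assumption
  refine ⟨B, ⟨hB, sub.2 ⟨m1, m2, m3, m4, m5⟩⟩, ?_⟩
  rintro C ⟨hC, hCT⟩
  obtain ⟨k1, k2, k3, k4, k5⟩ := sub.1 hCT
  rw [block_eq hle hU hu1 hu2 hv1 hv2 huv hC k1 k2 k3 k4 k5,
    block_eq hle hU hu1 hu2 hv1 hv2 huv hB m1 m2 m3 m4 m5]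

/-- the global statement -/
theorem steiner (hle : ∀ i < N, ∀ j < 6, bc i j ≤ 263) (hU : Uni N bc M) (hE : Exi N bc)
    {T : Finset (OnePoint F)} (hT : T.card = 5) :
    ∃! B, IsBlock N bc B ∧ T ⊆ B := by
  obtain ⟨A, hA, hA3⟩ := Finset.exists_subset_card_eq (show 3 ≤ T.card by omega)
  obtain ⟨x, y, z, hxy, hxz, hyz, rfl⟩ := Finset.card_eq_three.1 hA3
  obtain ⟨g, hg, hgs⟩ := homogeneous x y z hxy hxz hyz
  have h1 : (T.image (fun x => g • x)).card = 5 := by
    rw [Finset.card_image_of_injective _ (MulAction.injective g), hT]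
  have h2 : {dec 263, dec 0, dec 1} ⊆ T.image (fun x => g • x) := by
    rw [← hgs]
    have := Finset.image_subset_image (f := fun x => g • x) hA
    simpa only [Finset.image_insert, Finset.image_singleton] using this
  obtain ⟨B, ⟨hB, hTB⟩, hun⟩ := steiner_local hle hU hE h1 h2
  have e : ∀ C : Finset (OnePoint F), (C.image (fun x => g • x)).image (fun x => g⁻¹ • x) = C := by
    intro C
    rw [Finset.image_image]
    have : ((fun x : OnePoint F => g⁻¹ • x) ∘ fun x => g • x) = id := by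
      ext x
      simp
    rw [this, Finset.image_id]
  refine ⟨B.image (fun x => g⁻¹ • x), ⟨hB.smul (Subgroup.inv_mem _ hg), ?_⟩, ?_⟩
  · have := Finset.image_subset_image (f := fun x => g⁻¹ • x) hTB
    rwa [e T] at this
  · rintro C ⟨hC, hTC⟩
    have := hun (C.image (fun x => g • x)) ⟨hC.smul hg, Finset.image_subset_image hTC⟩
    rw [← this, e C]

end data

end Pool.Agent.V7H92.S263
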